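import Pool.Agent.Q28.AL.Main

/-!
# The kernel of the Albanese map of abelian varieties and products of algebraically trivial cycles

Let `F^2(X)` be the kernel of the Albanese map of `X` (rational coefficients; over an algebraically
closed field such as the algebraic numbers; the groups `F^2(X)` have no torsion). The conjecture of
Beilinson, `F^2 = 0`, for all abelian varieties is equivalent to the case of products of two curves,
and to the vanishing of all products of two algebraically trivial cycles (in any codimensions on any
varieties). If it holds, then the map `Γ_*` from the Jacobian of a curve `T` depends only on the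
algebraic equivalence class of `Γ`, and `F^2(X) = 0` for all `X` for which homological and algebraic
equivalence agree for the one-cycles on the products `T × X`, `T` a curve.
-/

open CategoryTheory AlgebraicGeometry

universe u v w

namespace Pool.Agent.Results.MP_2eeeac_ag.AbelianVarietiesAndProducts

open Pool.Agent.H914 Pool.Agent.H914.VarClass Pool.Agent.H914.VarClass.Obj Pool.Agent.W492.BB
  Pool.Agent.TH133 Pool.Agent.Q28.PV Pool.Agent.Q28.AL

/-- **The Albanese kernel of abelian varieties and products of algebraically trivial cycles.** Let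
`C` be the Chow theory with rational coefficients and `H` a Weil cohomology theory on the smooth
projective varieties over an algebraically closed field, `Ab` the class of abelian varieties (`hF`:
well-known facts on zero-cycles and divisors). `AlbKernel H X z` says that `z` lies in `F^2(X)`.

1. Equivalent: `F^2(T × T') = 0` for all curves `T`, `T'`; `F^2(A) = 0` for all abelian varieties `A`;
  `CH^i(X)_alg · CH^j(X)_alg = 0` for all `X`, `i`, `j`.
2. If the statements of 1 hold, then the map `Γ_*` from `CH^1(T)_0` to `CH^j(X)`, `T` a curve,
  depends only on the algebraic equivalence class of `Γ ∈ CH^j(T × X)`, for all `X` and `j`; and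
  `F^2(X) = 0` for all those `X` for which homological and algebraic equivalence agree for one-cycles
  on the products `T × X`, `T` a curve. -/
theorem result {k : Type u} [Field k] {𝒱 : VarClass k} {C : TheoryData.{u, v, 0} 𝒱 ℚ}
    [IsChowProj C] {K : Type w} [Field K] {H : WeilTheoryData.{u, v, w} C K} [IsWeilProj H]
    {Ab : 𝒱.Obj → Prop} (hF : Facts H Ab) :
    [∀ (T T' : 𝒱.Obj) (z : C.A (T.prod T')), T.dim = 1 → T'.dim = 1 →
        AlbKernel H (T.prod T') z → z = 0,
      ∀ (A : 𝒱.Obj) (z : C.A A), Ab A → AlbKernel H A z → z = 0,
      ∀ (X : 𝒱.Obj) (i j : ℕ) (x y : C.A X), AlgTriv H X i x → AlgTriv H X j y →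
        C.mul x y = 0].TFAE ∧
    ((∀ (A : 𝒱.Obj) (z : C.A A), Ab A → AlbKernel H A z → z = 0) →
      (∀ (T X : 𝒱.Obj) (Γ Γ' : C.A (T.prod X)) (a : C.A T) (j : ℕ), T.dim = 1 →
        AlgTriv H (T.prod X) j (Γ - Γ') → HomTriv H T 1 a → C.act Γ a = C.act Γ' a) ∧
      ∀ X : 𝒱.Obj, (∀ (T : 𝒱.Obj) (Γ : C.A (T.prod X)), T.dim = 1 →
        HomTriv H (T.prod X) X.dim Γ → AlgTriv H (T.prod X) X.dim Γ) →
          ∀ z : C.A X, AlbKernel H X z → z = 0) :=
  ⟨(final hF).2.2.1, (final hF).2.2.2⟩

end Pool.Agent.Results.MP_2eeeac_ag.AbelianVarietiesAndProducts
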