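import Pool.Agent.Q35.ZC.Ct
import Pool.Agent.Q35.ZC.All

/-!
# Double covers of `(ℙ¹)ⁿ`: rationally equivalent rational points are dense near a rational point

`K` is a field of characteristic zero, for example a number field, and `X : w² = f(x₁, …, x_n)`, where
`f` has degree at most `4` in each variable: an affine open subset of a double cover of `(ℙ¹)ⁿ` branched
along a divisor of multidegree `(4, …, 4)`. If this divisor is smooth and `n ≥ 2` then the double cover is
a Calabi–Yau variety with trivial Albanese variety, and Beilinson's conjecture says that for a number field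
`K` any two points are rationally equivalent over the algebraic closure. Let `ι` be the involution
`w ↦ -w`. The class of `[Q] + [ι Q]`, a fibre of the projection to `(ℙ¹)ⁿ`, does not depend on the point
`Q`. We call a rational point `Q` *central* if a positive multiple of `[Q] - [ι Q]` is rationally equivalent
to zero over the algebraic closure.

**Theorem.**
1. A positive multiple of the difference of two central points is rationally equivalent to zero over the
   algebraic closure.
2. Let `P` be a rational point, `w ≠ 0`, such that for each direction `j` there is a direction `i` with the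
   following properties: the curve in the direction `i` through `P` is smooth of genus one and the
   difference of its points `P`, `ι P` has infinite order in its Jacobian; and `i = j`, or the line in the
   direction `i` through `P` is not special for `j`: `∂f / ∂x_j` is not a multiple of `f` on the line, and
   some curve in the direction `j` which meets the line is smooth of genus one. Then the rational points
   `Q` such that `[Q] - [ι Q]` is an odd multiple of `[P] - [ι P]` in the Chow group of zero-cycles over
   `K` are dense near `P`, in the product of the sets of the `K_v`-points, for all finite nonempty sets of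
   `p`-adic places `v` of degree one (embeddings of `K` into `ℚ_p`) over different primes `p`, with or
   without a real place. If `P` is central then all these `Q` are central.
3. If a line in the direction of a coordinate is tangent to the divisor `f = 0` (over the algebraic
   closure; so the curve over it is singular and therefore rational) then all rational points over this
   line are central.

So if one of the curves of genus one through `P` degenerates to a rational curve and one of the others
moves `P` as in (2), then the rational points which are rationally equivalent to `P` over the algebraic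
closure, up to torsion, are dense near `P`.

Zero-cycles are formal sums of points of the affine part `w² = f(x)`. The cycles in `Rat` are rationally
equivalent to zero; they are generated by the divisors of the functions `(u + v w) / (u - v w)` on the
curves in the directions of the coordinates, the differences of two points on the image of a line
`t ↦ (c(t), b(t))`, and the differences of two fibres of the projection `(x, w) ↦ x`.

Lemmas on the curves of genus one: helpers 5, 26, 65, 131, 231, 254; on zero-cycles: helpers 5, 68, 210.
-/

set_option autoImplicit false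

namespace Pool.Agent.Results.MP_2eeeac_ag.DoubleCovers

open MvPolynomial

section surfaces

/-- The point `(x, w)` lies on the double cover `w² = f(x)`. -/
def OnCover {F : Type} [Field F] {m : ℕ} (f : MvPolynomial (Fin m) F) (P : (Fin m → F) × F) :
    Prop :=
  P.2 ^ 2 = eval P.1 f

/-- The image of a point under an embedding of fields. -/
def image {K F : Type} [Field K] [Field F] (φ : K →+* F) {m : ℕ}
    (P : (Fin m → K) × K) : (Fin m → F) × F :=
  (fun j => φ (P.1 j), φ P.2)

/-- The restriction `q(t) = f(x + t e_i)` of a polynomial to the line through `x` in the direction of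
the `i`-th coordinate. -/
noncomputable def line {F : Type} [Field F] {m : ℕ} (f : MvPolynomial (Fin m) F) (x : Fin m → F)
    (i : Fin m) : Polynomial F :=
  aeval (fun k => Polynomial.C (x k) +
    Polynomial.C ((Pi.single i 1 : Fin m → F) k) * Polynomial.X) f

/-- The Jacobian of the curve `w² = c + q₁ t + q₂ t² + q₃ t³ + q₄ t⁴` of genus one (the cubic
resolvent), `q_k` the coefficients of `q`. -/
noncomputable def jacobian {F : Type} [Field F] (q : Polynomial F) (c : F) : WeierstrassCurve F :=
  ⟨0, q.coeff 2, 0, q.coeff 1 * q.coeff 3 - 4 * c * q.coeff 4,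
    q.coeff 1 ^ 2 * q.coeff 4 + c * q.coeff 3 ^ 2 - 4 * c * q.coeff 2 * q.coeff 4⟩

/-- The curve `w² = q(t)` is smooth of genus one. -/
def GenusOne {F : Type} [Field F] (q : Polynomial F) : Prop := (jacobian q (q.coeff 0)).Δ ≠ 0

/-- The first coordinate, on the Jacobian, of the difference of the two points `(0, w)`, `(0, -w)` of
the curve `w² = q(t)`. -/
noncomputable def abscissa {F : Type} [Field F] (q : Polynomial F) (w : F) : F :=
  q.coeff 1 ^ 2 / (4 * w ^ 2) - q.coeff 2

/-- The second coordinate. -/
noncomputable def ordinate {F : Type} [Field F] (q : Polynomial F) (w : F) : F :=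
  (q.coeff 1 * abscissa q w + 2 * w ^ 2 * q.coeff 3) / (2 * w)

/-- The difference of the two points `(0, w)`, `(0, -w)` of the curve `w² = q(t)` has infinite order
in the Jacobian. -/
def InfiniteOrder {F : Type} [Field F] (q : Polynomial F) (w : F) : Prop :=
  letI : DecidableEq F := Classical.decEq F
  ∀ h : (jacobian q (w ^ 2)).toAffine.Nonsingular (abscissa q w) (ordinate q w),
    ∀ n : ℕ, n ≠ 0 → n • (.some (abscissa q w) (ordinate q w) h :
      (jacobian q (w ^ 2)).toAffine.Point) ≠ 0

/-- Moves along the curve in the direction `i` through the point `P = (x, w)`: the curve is smooth of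
genus one and the difference of `P` and `ι P` has infinite order in its Jacobian. -/
def Moves {F : Type} [Field F] {m : ℕ} (f : MvPolynomial (Fin m) F) (P : (Fin m → F) × F)
    (i : Fin m) : Prop :=
  GenusOne (line f P.1 i) ∧ InfiniteOrder (line f P.1 i) P.2

/-- The line in the direction `i` through `x` is not special for the direction `j`: the derivative
`∂f / ∂x_j` is not a multiple of `f` on the line, and some curve in the direction `j` which meets the
line is smooth of genus one. -/
def NotSpecial {F : Type} [Field F] {m : ℕ} (f : MvPolynomial (Fin m) F) (x : Fin m → F)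
    (i j : Fin m) : Prop :=
  ¬ line f x i ∣ line (pderiv j f) x i ∧
    ∃ u : F, GenusOne (line f (fun a => x a + u * (Pi.single i 1 : Fin m → F) a) j)

/-- `i = j`, or the line in the direction `i` through `x` is not special for the direction `j`. -/
def Serves {F : Type} [Field F] {m : ℕ} (f : MvPolynomial (Fin m) F) (x : Fin m → F)
    (i j : Fin m) : Prop :=
  i = j ∨ NotSpecial f x i j

end surfaces

section cycles

variable {F : Type} [Field F] {m : ℕ}

/-- The zero-cycle `[(x, w)]`. -/
noncomputable def pt (x : Fin m → F) (w : F) : ((Fin m → F) × F) →₀ ℤ := Finsupp.single (x, w) 1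

/-- The zero-cycle `[(x, w)] - [(x, -w)]`. -/
noncomputable def dl (x : Fin m → F) (w : F) : ((Fin m → F) × F) →₀ ℤ := pt x w - pt x (-w)

/-- The point `x + t e_i`. -/
def shift (x : Fin m → F) (i : Fin m) (t : F) : Fin m → F :=
  fun a => x a + t * (Pi.single i 1 : Fin m → F) a

/-- The function `u(t) + v(t) w` on the curve `w² = q(t)` has the zeros `T` (with multiplicities), and
no zero at infinity (as a section of the `M`-th power of the line bundle of degree two): `u` and `v` are
coprime, the function vanishes at the points `T` of the curve, its norm `u² - v² q` has degree `2 M` and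
the zeros `t`, `(t, w) ∈ T`. -/
def Zeros (q u v : Polynomial F) (T : Multiset (F × F)) : Prop :=
  IsCoprime u v ∧ (∀ s ∈ T, s.2 ^ 2 = q.eval s.1 ∧ u.eval s.1 + v.eval s.1 * s.2 = 0) ∧
    (∃ κ : F, κ ≠ 0 ∧ u ^ 2 - v ^ 2 * q =
      Polynomial.C κ * (T.map fun s => Polynomial.X - Polynomial.C s.1).prod) ∧
    ∃ M : ℕ, T.card = 2 * M ∧ u.natDegree ≤ M ∧ v.natDegree + 2 ≤ M

/-- The divisors of the functions `(u + v w) / (u - v w)` on the curves in the direction of a
coordinate. -/
def Fibral (f : MvPolynomial (Fin m) F) : Set (((Fin m → F) × F) →₀ ℤ) :=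
  {z | ∃ (x : Fin m → F) (i : Fin m) (u v : Polynomial F) (T : Multiset (F × F)),
    Zeros (line f x i) u v T ∧ z = (T.map fun s => dl (shift x i s.1) s.2).sum}

/-- The differences of two points on a rational curve, the image of a line under
`t ↦ (c(t), b(t))`. -/
def Curves (f : MvPolynomial (Fin m) F) : Set (((Fin m → F) × F) →₀ ℤ) :=
  {z | ∃ (c : Fin m → Polynomial F) (b : Polynomial F), b ^ 2 = aeval c f ∧
    z = pt (fun k => (c k).eval 0) (b.eval 0) - pt (fun k => (c k).eval 1) (b.eval 1)}

/-- The differences of two fibres of the projection `(x, w) ↦ x`. -/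
def Fibres (f : MvPolynomial (Fin m) F) : Set (((Fin m → F) × F) →₀ ℤ) :=
  {z | ∃ (x x' : Fin m → F) (w w' : F), w ^ 2 = eval x f ∧ w' ^ 2 = eval x' f ∧
    z = pt x w + pt x (-w) - pt x' w' - pt x' (-w')}

/-- A group of zero-cycles which are rationally equivalent to zero on `w² = f(x)`. -/
noncomputable def Rat (f : MvPolynomial (Fin m) F) : AddSubgroup (((Fin m → F) × F) →₀ ℤ) :=
  AddSubgroup.closure (Fibral f ∪ Curves f ∪ Fibres f)

end cycles

section points

variable {K : Type} [Field K] {m : ℕ}

/-- The rational points `Q` such that `[Q] - [ι Q]` is an odd multiple of `[P] - [ι P]`. -/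
def OddMultiples (f : MvPolynomial (Fin m) K) (P : (Fin m → K) × K) : Set ((Fin m → K) × K) :=
  {Q | OnCover f Q ∧ ∃ k : ℤ, dl Q.1 Q.2 - (2 * k + 1) • dl P.1 P.2 ∈ Rat f}

/-- The embedding in the algebraic closure. -/
noncomputable abbrev toC (K : Type) [Field K] : K →+* AlgebraicClosure K :=
  algebraMap K (AlgebraicClosure K)

/-- The rational points `Q` such that a positive multiple of `[Q] - [ι Q]` is rationally equivalent to
zero over the algebraic closure. -/
def Central (f : MvPolynomial (Fin m) K) : Set ((Fin m → K) × K) :=
  {Q | OnCover f Q ∧ ∃ N : ℕ, N ≠ 0 ∧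
    N • dl (image (toC K) Q).1 (image (toC K) Q).2 ∈ Rat (map (toC K) f)}

/-- A positive multiple of the difference of the points is rationally equivalent to zero over the
algebraic closure. -/
def Equivalent (f : MvPolynomial (Fin m) K) (Q Q' : (Fin m → K) × K) : Prop :=
  ∃ N : ℕ, N ≠ 0 ∧ N • (pt (image (toC K) Q).1 (image (toC K) Q).2 -
    pt (image (toC K) Q').1 (image (toC K) Q').2) ∈ Rat (map (toC K) f)

variable {ι : Type} {p : ι → ℕ} [∀ i, Fact (p i).Prime]

/-- The points of `R` are dense near `P` in the product of the sets of the `ℚ_[p i]`-points. -/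
def Dense (f : MvPolynomial (Fin m) K) (R : Set ((Fin m → K) × K)) (P : (Fin m → K) × K)
    (σ : ∀ i, K →+* ℚ_[p i]) : Prop :=
  ∃ U ∈ nhds (fun i => image (σ i) P), ∀ S ∈ U, (∀ i, OnCover (map (σ i) f) (S i)) →
    S ∈ closure {S | ∃ Q ∈ R, S = fun i => image (σ i) Q}

/-- The points of `R` are dense near `P` in the product of the set of the real points and of the sets
of the `ℚ_[p i]`-points. -/
def DenseReal (f : MvPolynomial (Fin m) K) (R : Set ((Fin m → K) × K)) (P : (Fin m → K) × K)
    (σ : ∀ i, K →+* ℚ_[p i]) (τ : K →+* ℝ) : Prop :=
  ∃ U ∈ nhds (image τ P, fun i => image (σ i) P), ∀ S ∈ U, OnCover (map τ f) S.1 →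
    (∀ i, OnCover (map (σ i) f) (S.2 i)) →
      S ∈ closure {S | ∃ Q ∈ R, S = (image τ Q, fun i => image (σ i) Q)}

/-- The points of `R` are dense near `P`, for all finite nonempty sets of `p`-adic places of degree one
over different primes, with or without a real place. -/
def DenseNear (f : MvPolynomial (Fin m) K) (R : Set ((Fin m → K) × K)) (P : (Fin m → K) × K) : Prop :=
  ∀ (ι : Type) [Finite ι] [Nonempty ι] (p : ι → ℕ) [∀ v, Fact (p v).Prime],
    Function.Injective p → ∀ σ : ∀ v, K →+* ℚ_[p v],
      Dense f R P σ ∧ ∀ τ : K →+* ℝ, DenseReal f R P σ τ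

end points

/-- The theorem, from the lemmas. -/
theorem result_of (hS : Pool.Agent.Q35.ZC.S_STEP) (hM : Pool.Agent.Q35.ZC.S_MAP)
    (hO : Pool.Agent.Q35.ZC.S_NOD) (K : Type) [Field K] [CharZero K] (n : ℕ)
    (f : MvPolynomial (Fin n) K) (hd : ∀ j, f.degreeOf j ≤ 4) :
    (∀ Q ∈ Central f, ∀ Q' ∈ Central f, Equivalent f Q Q') ∧
    (∀ P, OnCover f P → P.2 ≠ 0 → (∀ j, ∃ i, Moves f P i ∧ Serves f P.1 i j) →
      DenseNear f (OddMultiples f P) P ∧
      (P ∈ Central f → OddMultiples f P ⊆ Central f)) ∧
    ∀ (P : (Fin n → K) × K) (i : Fin n), OnCover f P →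
      (∃ y : Fin n → AlgebraicClosure K, (∀ k, k ≠ i → y k = toC K (P.1 k)) ∧ aeval y f = 0 ∧
        aeval y (pderiv i f) = 0) → P ∈ Central f := by
  refine ⟨fun Q hQ Q' hQ' => Pool.Agent.Q35.ZC.ct_pair hQ hQ', fun P hP hw hc => ⟨?_, fun hPc =>
    Pool.Agent.Q35.ZC.odds_ct hM hPc⟩, fun P i hP h =>
      Pool.Agent.Q35.ZC.tangent_ct hO (f := f) (hd i) hP h⟩
  intro ι _ _ p _ hinj σ
  exact Pool.Agent.Q35.ZC.near hS hd hP hw hc hinj σ

/-- **Rationally equivalent rational points are dense near a rational point.** -/
theorem result (K : Type) [Field K] [CharZero K] (n : ℕ)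
    (f : MvPolynomial (Fin n) K) (hd : ∀ j, f.degreeOf j ≤ 4) :
    -- (1) two central points are equivalent
    (∀ Q ∈ Central f, ∀ Q' ∈ Central f, Equivalent f Q Q') ∧
    -- (2) the odd multiples of the class of `P` are dense near `P`
    (∀ P, OnCover f P → P.2 ≠ 0 → (∀ j, ∃ i, Moves f P i ∧ Serves f P.1 i j) →
      DenseNear f (OddMultiples f P) P ∧
      (P ∈ Central f → OddMultiples f P ⊆ Central f)) ∧
    -- (3) the points over a tangent line
    ∀ (P : (Fin n → K) × K) (i : Fin n), OnCover f P →
      (∃ y : Fin n → AlgebraicClosure K, (∀ k, k ≠ i → y k = toC K (P.1 k)) ∧ aeval y f = 0 ∧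
        aeval y (pderiv i f) = 0) → P ∈ Central f :=
  result_of Pool.Agent.Q35.ZC.step2 Pool.Agent.Q35.ZC.map2 Pool.Agent.Q35.ZC.nod2 K n f hd

end Pool.Agent.Results.MP_2eeeac_ag.DoubleCovers
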