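import Pool.Agent.Q28.AL.Main

/-!
# The kernel of the Albanese map and products of cycles with divisors

Let `F^2(X)` be the kernel of the Albanese map of `X` (rational coefficients; over an algebraically
closed field such as the algebraic numbers; the groups `F^2(X)` have no torsion). Without any
assumption, `F^2(X)` is the set of the push-forwards `h_* (x · y)`, for maps `h : Y → X` from
threefolds, homologically trivial curve classes `x` and divisor classes `y` in `Pic^0(Y)`. Hence the
conjecture of Beilinson, `F^2(X) = 0` for all `X`, holds if and only if the product of homologically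
trivial curves and of `Pic^0` vanishes on threefolds, if and only if the product of a homologically
trivial and of an algebraically trivial cycle of complementary dimension vanishes on all varieties.
-/

open CategoryTheory AlgebraicGeometry

universe u v w

namespace Pool.Agent.Results.MP_2eeeac_ag.HomologicallyTrivialTimesPic

open Pool.Agent.H914 Pool.Agent.H914.VarClass Pool.Agent.H914.VarClass.Obj Pool.Agent.W492.BB
  Pool.Agent.TH133 Pool.Agent.Q28.PV Pool.Agent.Q28.AL

/-- **The Albanese kernel and products with divisors.** Let `C` be the Chow theory with rational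
coefficients and `H` a Weil cohomology theory on the smooth projective varieties over an
algebraically closed field, `Ab` the class of abelian varieties (`hF`: well-known facts on zero-cycles
and divisors). `AlbKernel H X z` says that `z` lies in `F^2(X)`.

1. For every `X`, `F^2(X)` is the set of the `Γ_* a`, `T` a curve, `Γ ∈ CH^(dim X)(T × X)`
  homologically trivial, `a ∈ CH^1(T)` of degree zero, and it is the set of the `h_* (x · y)`,
  `h : Y → X`, `dim Y = 3`, `x ∈ CH^2(Y)_hom`, `y ∈ Pic^0(Y)`.
2. Equivalent: `F^2(X) = 0` for all `X`; for all surfaces; `CH^2(Y)_hom · Pic^0(Y) = 0` for all `Y`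
  of dimension three; `CH^i(X)_hom · CH^j(X)_alg = 0` for all `X` and `i + j = dim X`. -/
theorem result {k : Type u} [Field k] {𝒱 : VarClass k} {C : TheoryData.{u, v, 0} 𝒱 ℚ}
    [IsChowProj C] {K : Type w} [Field K] {H : WeilTheoryData.{u, v, w} C K} [IsWeilProj H]
    {Ab : 𝒱.Obj → Prop} (hF : Facts H Ab) :
    (∀ (X : 𝒱.Obj) (z : C.A X), [AlbKernel H X z,
      ∃ (T : 𝒱.Obj) (Γ : C.A (T.prod X)) (a : C.A T), T.dim = 1 ∧ HomTriv H (T.prod X) X.dim Γ ∧
        HomTriv H T 1 a ∧ z = C.act Γ a,
      ∃ (Y : 𝒱.Obj) (h : Y ⟶ X) (x y : C.A Y), Y.dim = 3 ∧ HomTriv H Y 2 x ∧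
        AlgTriv H Y 1 y ∧ z = C.down h (C.mul x y)].TFAE) ∧
    [∀ (X : 𝒱.Obj) (z : C.A X), AlbKernel H X z → z = 0,
      ∀ (S : 𝒱.Obj) (z : C.A S), S.dim = 2 → AlbKernel H S z → z = 0,
      ∀ (Y : 𝒱.Obj) (x y : C.A Y), Y.dim = 3 → HomTriv H Y 2 x → AlgTriv H Y 1 y →
        C.mul x y = 0,
      ∀ (X : 𝒱.Obj) (i j : ℕ) (x y : C.A X), i + j = X.dim → HomTriv H X i x →
        AlgTriv H X j y → C.mul x y = 0].TFAE :=
  ⟨(final hF).1, (final hF).2.1⟩

end Pool.Agent.Results.MP_2eeeac_ag.HomologicallyTrivialTimesPic
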