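import Pool.Agent.Q226.SC.ZQBar

set_option autoImplicit false

/-!
# Beilinson's conjecture on the Albanese kernel reduces to simply connected surfaces, and to rational
points of such surfaces over `ℚ`
-/

namespace Pool.Agent.Results.MP_2eeeac_ag.SimplyConnectedSurfaces

open Pool.Agent.Q226.SC

/-- Let `k` be an algebraically closed field of characteristic `0`.

1. For every smooth projective variety `X` of positive dimension, a zero-cycle `z` on `X` has degree
`0` and Albanese image `0` if and only if `z = F(s) - F(s')` for a family `F` of effective
zero-cycles on `X` parametrised by a simply connected smooth projective surface `S` and two points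
`s, s'` of `S`.

2. Hence the Albanese map is injective on zero-cycle classes of degree `0` for all `X` (for
`k = ℚ̄` this is Beilinson's conjecture) if and only if any two points of a simply connected smooth
projective surface are rationally equivalent.

Now let `k = ℚ̄`.

3. For a smooth projective variety `X` of positive dimension over a number field, a multiple of a
zero-cycle `z` on `X` has degree `0` and Albanese image `0` if and only if a multiple of it is
`E(t) - E(t')` for a family `E` of effective zero-cycles on `X` (considered over `ℚ`) over a
geometrically simply connected smooth projective surface `T` over `ℚ` and two rational points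
`t, t'` of `T`.

4. Beilinson's conjecture is equivalent to: any two rational points of a geometrically simply
connected smooth projective surface `T` over `ℚ` are rationally equivalent up to torsion.

5. It is also equivalent to: the dimension of the space spanned by the differences of rational points
of `T` in `CH₀(T) ⊗ ℚ` is bounded, uniformly in these surfaces `T` over `ℚ`. -/
theorem result (G : Geo) (C : Cycles G) (h : Facts C) :
    (∀ X : G.Var, 1 ≤ G.dim X → ∀ z : C.Pt X →₀ ℤ,
      (C.InKernel X z ↔
        ∃ (S : G.Var) (F : C.Fam S X), G.dim S = 2 ∧ G.SC S ∧ C.Connects F z)) ∧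
    ((∀ X : G.Var, 1 ≤ G.dim X → C.Injective X) ↔
      ∀ S : G.Var, G.dim S = 2 → G.SC S → C.OneClass S) ∧
    ∀ Q : Arith C, Q.Facts → Q.BarFacts →
      (∀ X : Q.Sch, 1 ≤ G.dim (Q.geo X) → ∀ z : Q.Z X,
        ((∃ n : ℕ, 0 < n ∧ C.InKernel (Q.geo X) (Q.ext X (n • z))) ↔
          ∃ (T : Q.Sch) (E : Q.FamQ T X) (t t' : Q.Pts T) (n : ℕ),
            Q.SCSurface T ∧ 0 < n ∧ n • z = Q.cyc E t - Q.cyc E t')) ∧
      ((∀ X : G.Var, 1 ≤ G.dim X → C.Injective X) ↔
        ∀ T : Q.Sch, Q.SCSurface T → Q.PointsEquivalent T) ∧
      ((∀ X : G.Var, 1 ≤ G.dim X → C.Injective X) ↔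
        ∃ m : ℕ, ∀ T : Q.Sch, Q.SCSurface T → Q.RankBelow m T) :=
  ⟨fun X hX z => inKernel_iff h X hX z, injective_iff h, fun Q q b =>
    ⟨fun X hX z => albanese_kernel_iff h q X hX z, albanese_injective_iff h q b,
      (albanese_injective_iff h q b).trans (rank_law q)⟩⟩

end Pool.Agent.Results.MP_2eeeac_ag.SimplyConnectedSurfaces
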